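import Pool.Agent.Q287.BA.ArtP

/-!
# The word problem for all Artin groups: bounded advice does not help, even with errors

An Artin group of rank `n` is given by its `n (n - 1) / 2` labels `m_ij ∈ {2, 3, …, ∞}`. Suppose that
there are `k` algorithms (which need not halt always) such that for every rank `n` and every `H` one
of them decides, for each word `w`, whether `w = 1` for most of the Artin groups of rank `n` with
labels up to `H`: with at most `H ^ ((1 - ε) n (n - 1) / 2)` failures (it does not halt or gives the
wrong answer), up to a computable factor which depends on `n` and `w`. Which of the algorithms is the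
good one may depend on `n` and `H` in an arbitrary, non-computable way. Then the word problem for all Artin groups is decidable, uniformly in the labels.

The reason: an Artin group is a retract of the groups of larger rank with even or infinite labels
between old and new generators. A majority vote among these gives for all `n` and `H` a list of `k`
candidates for the answers, which need not halt, and one of which is right for all small inputs. A
finite set of inputs tells for infinitely many sizes which candidates halt, and further inputs rule
out enough of these.
-/

set_option autoImplicit false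

namespace Pool.Agent.Results.MP_a1ec0a_al.BoundedAdvice

open Pool.Agent.Q324.SC Pool.Agent.Q324.SC.Art
open Pool.Agent.Q324.SC.Mat (tri)

/-- For every `q ≥ 1` the word problem for all Artin groups is decidable, uniformly in the
labels, if and only if there are a number `k`, partial computable functions
`A (0, ·), …, A (k - 1, ·)` and a computable `K` such that for every rank `n` and every `H` there is
`i < k` such that for all words `w` the number `E` of the choices of the `n (n - 1) / 2` labels in
`[0, H]` for which `A (i, ·)` does not halt or gives the wrong answer for `w` satisfies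
`E ^ q ≤ K (n, w) (H + 1) ^ ((q - 1) n (n - 1) / 2)`. -/
theorem result (q : ℕ) (hq : 1 ≤ q) : ComputablePred WP ↔
    ∃ (k : ℕ) (A : ℕ × Inp →. Bool) (K : ℕ × List (ℕ × Bool) → ℕ), Partrec A ∧ Computable K ∧
      ∀ n H : ℕ, ∃ i < k, ∀ w : List (ℕ × Bool),
        {l | l ∈ Labels n H ∧ ¬ ∃ b ∈ A (i, n, l, w), (b = true ↔ WP (n, l, w))}.encard ^ q
          ≤ ((K (n, w) * (H + 1) ^ ((q - 1) * (n * (n - 1) / 2)) : ℕ) : ℕ∞) := by
  refine ⟨?_, ?_⟩
  · rintro ⟨inst, hc⟩
    refine ⟨1, fun x => Part.some (decide (WP x.2)), fun _ => 0,
      Computable.partrec (hc.comp Computable.snd), Computable.const 0,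
      fun n H => ⟨0, Nat.one_pos, fun w => ?_⟩⟩
    have h1 : {l | l ∈ Labels n H ∧ ¬ ∃ b ∈ Part.some (decide (WP (n, l, w))),
        (b = true ↔ WP (n, l, w))} = ∅ := by
      ext p
      simp
    rw [h1, Set.encard_empty, zero_pow (by omega)]
    simp
  · rintro ⟨k, A, K, hA, hK, h⟩
    obtain ⟨r, rfl⟩ : ∃ r, q = r + 1 := ⟨q - 1, by omega⟩
    refine Pool.Agent.Q287.BA.Art.advicep k r hA hK fun R H => ?_
    obtain ⟨i, hi, hi2⟩ := h R H
    refine ⟨i, hi, fun w => ?_⟩
    have h1 := hi2 w
    rw [Nat.add_sub_cancel] at h1
    exact h1

end Pool.Agent.Results.MP_a1ec0a_al.BoundedAdvice
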