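import Pool.Agent.Q324.SC.Artin

/-!
# The word problem for all Artin groups from the word problem for most Artin groups

An Artin group of rank `n` is given by its `n (n - 1) / 2` labels `m_ij ∈ {2, 3, …, ∞}`. It is shown
that the word problem for all Artin groups is decidable, uniformly in the labels, as soon as one
computable function decides it with few errors: for each `n`, `w` and `H` it may give the wrong
answer for the word `w` for `H ^ ((1 - ε) n (n - 1) / 2)` of the `H ^ (n (n - 1) / 2)` choices of the
labels up to `H`, for one fixed `ε > 0` and up to a computable factor which depends on `n` and `w`.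

The reason: if the labels between old and new generators are even or `∞` then the old Artin group is
a retract of the new one. For large rank these groups are more numerous than the errors, and a
majority vote among them gives the answer.
-/

set_option autoImplicit false

namespace Pool.Agent.Results.MP_a1ec0a_al.WorstCaseFromMostMatrices

open Pool.Agent.Q324.SC Pool.Agent.Q324.SC.Art
open Pool.Agent.Q324.SC.Mat (tri two_tri)

lemma num (E K X a b q : ℕ) (hq : 1 ≤ q) (hX : 1 ≤ X) (hab : a ≤ q * b) (h : E ^ q ≤ K * X ^ a) :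
    E ≤ K * X ^ b := by
  by_contra hc
  push Not at hc
  have h1 : (K * X ^ b) ^ q < E ^ q := Nat.pow_lt_pow_left hc (by omega)
  have h2 : K ≤ K ^ q := by
    rcases Nat.eq_zero_or_pos K with h0 | h0
    · rw [h0]; exact Nat.zero_le _
    · exact Nat.le_self_pow (by omega) K
  have h3 : X ^ a ≤ (X ^ b) ^ q := by
    rw [← pow_mul, Nat.mul_comm]
    exact Nat.pow_le_pow_right hX hab
  have h4 : K * X ^ a ≤ (K * X ^ b) ^ q := by
    rw [mul_pow]
    exact Nat.mul_le_mul h2 h3
  omega

/-- For every `q ≥ 1` the word problem for all Artin groups is decidable, uniformly in the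
labels, if and only if there are a total computable `A` and a computable `K` such that for all ranks
`n`, words `w` and all `H` the number `E` of the choices of the `n (n - 1) / 2` labels in `[0, H]`
for which `A` gives the wrong answer for `w` satisfies
`E ^ q ≤ K (n, w) (H + 1) ^ ((q - 1) n (n - 1) / 2)`. -/
theorem result (q : ℕ) (hq : 1 ≤ q) : ComputablePred WP ↔
    ∃ (A : Inp → Bool) (K : ℕ × List (ℕ × Bool) → ℕ), Computable A ∧ Computable K ∧
      ∀ (n : ℕ) (w : List (ℕ × Bool)) (H : ℕ),
        {l | l ∈ Labels n H ∧ Errs A (n, l, w)}.encard ^ q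
          ≤ ((K (n, w) * (H + 1) ^ ((q - 1) * (n * (n - 1) / 2)) : ℕ) : ℕ∞) := by
  refine ⟨?_, ?_⟩
  · rintro ⟨inst, hc⟩
    refine ⟨fun p => decide (WP p), fun _ => 0, hc, Computable.const 0, fun n w H => ?_⟩
    have h1 : {l | l ∈ Labels n H ∧ Errs (fun p => decide (WP p)) (n, l, w)} = ∅ := by
      ext p
      simp [Errs]
    rw [h1, Set.encard_empty, zero_pow (by omega)]
    simp
  · rintro ⟨A, K, hA, hK, h⟩
    obtain ⟨r, rfl⟩ : ∃ r, q = r + 1 := ⟨q - 1, by omega⟩
    have cN : Computable (fun d : ℕ => 2 * (r + 1) * (d + 2)) := by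
      have : Primrec (fun d : ℕ => 2 * (r + 1) * (d + 2)) := by fun_prop
      exact this.to_comp
    have cK : Computable (fun x : ℕ × List (ℕ × Bool) => K (2 * (r + 1) * (x.1 + 2), x.2)) :=
      hK.comp ((cN.comp Computable.fst).pair Computable.snd)
    refine artin_correct (N := fun d => 2 * (r + 1) * (d + 2))
      (K := fun x => K (2 * (r + 1) * (x.1 + 2), x.2)) hA cN cK (fun d => ?_) ?_
    · change d + 2 ≤ 2 * (r + 1) * (d + 2)
      exact Nat.le_mul_of_pos_left _ (by positivity)
    · intro d w H
      obtain ⟨n, hn⟩ : ∃ n, n = 2 * (r + 1) * (d + 2) := ⟨_, rfl⟩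
      change {l | l ∈ Labels (2 * (r + 1) * (d + 2)) H ∧ Errs A (2 * (r + 1) * (d + 2), l, w)}.encard
        ≤ ((K (2 * (r + 1) * (d + 2), w) *
          (H + 1) ^ (tri (2 * (r + 1) * (d + 2)) - tri d - 1) : ℕ) : ℕ∞)
      rw [← hn]
      have h1 := h n w H
      obtain ⟨E, hE⟩ : ∃ E, E = {l | l ∈ Labels n H ∧ Errs A (n, l, w)}.encard := ⟨_, rfl⟩
      rw [← hE] at h1 ⊢
      have hEt : E ≠ ⊤ := by
        intro ht
        rw [ht, ENat.top_pow (by omega)] at h1
        exact absurd h1 (not_le.2 (ENat.natCast_lt_top _))
      lift E to ℕ using hEt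
      norm_cast at h1 ⊢
      refine num E _ _ _ _ (r + 1) (by omega) (by omega) ?_ h1
      have e1 : r + 1 - 1 = r := by omega
      rw [e1]
      change r * tri n ≤ (r + 1) * (tri n - tri d - 1)
      have t1 := two_tri n
      have t2 := two_tri d
      -- `(r + 1) (tri d + 1) ≤ tri n`
      have e4 : (r + 1) * (tri d + 1) ≤ tri n := by
        have a1 : n * n = 2 * (r + 1) * (d + 2) * n := by
          nth_rewrite 1 [hn]
          rfl
        have a0 : 1 ≤ r + 1 := by omega
        have a2 : 2 * (r + 1) * (d + 2) * n = 2 * (r + 1) * (d + 1) * n + 2 * (r + 1) * n := by ring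
        have a3 : n ≤ 2 * (r + 1) * n := Nat.le_mul_of_pos_left _ (by positivity)
        have a4 : 2 * (r + 1) * (d * d + 2) ≤ 2 * (r + 1) * (d + 1) * n := by
          have b1 : d + 2 ≤ n := by
            rw [hn]
            exact Nat.le_mul_of_pos_left _ (by positivity)
          have b2 : d * d + 2 ≤ (d + 1) * n := by nlinarith
          calc 2 * (r + 1) * (d * d + 2) ≤ 2 * (r + 1) * ((d + 1) * n) := Nat.mul_le_mul_left _ b2
            _ = _ := by ring
        have a5 : 2 * tri d ≤ d * d := by omega
        have a6 : 2 * ((r + 1) * (tri d + 1)) ≤ 2 * (r + 1) * (d * d + 2) := by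
          have : 2 * ((r + 1) * (tri d + 1)) = 2 * (r + 1) * (tri d + 1) := by ring
          rw [this]
          exact Nat.mul_le_mul_left _ (by omega)
        omega
      have e5 : tri d + 1 ≤ tri n := by
        refine le_trans ?_ e4
        exact Nat.le_mul_of_pos_left _ (by positivity)
      have e6 : (r + 1) * (tri n - tri d - 1) = (r + 1) * tri n - (r + 1) * (tri d + 1) := by
        rw [← Nat.mul_sub]
        congr 1
      rw [e6]
      have e7 : (r + 1) * tri n = r * tri n + tri n := by ring
      omega

end Pool.Agent.Results.MP_a1ec0a_al.WorstCaseFromMostMatrices
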